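import Pool.Agent.helper24.IC.Spec

/-! # The chain of primitive idempotents -/

set_option autoImplicit false

namespace Pool.Agent.IC

universe u

lemma SEQ_pri (hPRI : PRI_stmt.{u}) {S : Type u} [Ring S] (T : Subring S) [IsSemisimpleRing T] (f c : S)
    (hf : f ∈ T) (hc : c ∈ T) (hff : f * f = f) (hcf : c * f ≠ 0) :
    ∃ g ∈ T, g * g = g ∧ f * g = g ∧ g * f = g ∧ c * g ≠ 0 ∧
      ∀ x ∈ T, x * g = 0 ∨ ∃ y ∈ T, y * (x * g) = g := by
  obtain ⟨g, h1, h2, h3, h4, h5⟩ := hPRI T ⟨f, hf⟩ ⟨c, hc⟩ (Subtype.ext hff)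
    (fun h => hcf (congrArg Subtype.val h))
  refine ⟨g.1, g.2, congrArg Subtype.val h1, congrArg Subtype.val h2, congrArg Subtype.val h3,
    fun h => h4 (Subtype.ext h), ?_⟩
  intro x hx
  rcases h5 ⟨x, hx⟩ with h | ⟨y, hy⟩
  · exact Or.inl (congrArg Subtype.val h)
  · exact Or.inr ⟨y.1, y.2, congrArg Subtype.val hy⟩

/-- The states of the recursion. -/
structure SEQ_St {S : Type u} [Ring S] (C : ℕ → Subring S) (e : S) where
  k : ℕ
  g : S
  mem : g ∈ C k
  ne : g ≠ 0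
  idem : g * g = g
  eg : e * g = g
  ge : g * e = g
  prim : ∀ x ∈ C k, x * g = 0 ∨ ∃ y ∈ C k, y * (x * g) = g

lemma SEQ_step (hPRI : PRI_stmt.{u}) (hREG : REG_stmt.{u}) {S : Type u} [Ring S] (C : ℕ → Subring S)
    (hm : Monotone C) (hall : ∀ r, ∃ n, r ∈ C n) (hss : ∀ n, IsSemisimpleRing (C n)) (e : S)
    (hNM : ∀ f, f * e = f → f ≠ 0 → ∃ h, h * f ≠ 0 ∧ ∀ r, r * (h * f) ≠ f)
    (hP : ∀ f' f'', f' * f' = f' → f'' * f'' = f'' → e * f' = f' → f' * e = f' → e * f'' = f'' →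
      f'' * e = f'' → f' ≠ 0 → f'' ≠ 0 → ∃ b, f'' * b * f' ≠ 0) (s : SEQ_St C e) :
    ∃ (s' : SEQ_St C e) (ε : S), s.k < s'.k ∧ s.g * s'.g = s'.g ∧ s'.g * s.g = s'.g ∧ ε ∈ C s'.k ∧
      s.g * ε = ε ∧ ε * s'.g = ε ∧ s'.g * ε = 0 ∧ ε ≠ 0 := by
  obtain ⟨k, f, hfm, hf0, hff, hef, hfe, hpr⟩ := s
  obtain ⟨h, hhf, hr⟩ := hNM f hfe hf0
  -- regularity
  obtain ⟨y, hy⟩ : ∃ y, (h * f) * y * (h * f) = h * f := by
    obtain ⟨n, hn⟩ := hall (h * f)
    have := hss n
    obtain ⟨y, hy⟩ := hREG (C n) ⟨h * f, hn⟩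
    exact ⟨y.1, congrArg Subtype.val hy⟩
  obtain ⟨f', hf'⟩ : ∃ f', f' = f * y * (h * f) := ⟨_, rfl⟩
  have a1 : h * f' = h * f := by
    rw [hf']
    calc h * (f * y * (h * f)) = (h * f) * y * (h * f) := by noncomm_ring
      _ = h * f := hy
  have a2 : f * f' = f' := by
    rw [hf']
    calc f * (f * y * (h * f)) = (f * f) * y * (h * f) := by noncomm_ring
      _ = _ := by rw [hff]
  have a3 : f' * f = f' := by
    rw [hf']
    calc f * y * (h * f) * f = f * y * (h * (f * f)) := by noncomm_ring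
      _ = _ := by rw [hff]
  have a4 : f' * f' = f' := by
    calc f' * f' = (f * y * (h * f)) * f' := by rw [← hf']
      _ = f * y * (h * (f * f')) := by noncomm_ring
      _ = f * y * (h * f) := by rw [a2, a1]
      _ = f' := hf'.symm
  have a5 : f' ≠ 0 := by
    intro h0
    rw [h0, mul_zero] at a1
    exact hhf a1.symm
  have a6 : f' ≠ f := by
    intro h0
    apply hr (f * y)
    rw [← hf', h0]
  obtain ⟨f'', hf''⟩ : ∃ f'', f'' = f - f' := ⟨_, rfl⟩
  have b1 : f'' * f' = 0 := by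
    rw [hf'', sub_mul, a2, a4, sub_self]
  have b2 : f' * f'' = 0 := by
    rw [hf'', mul_sub, a3, a4, sub_self]
  have b3 : f * f'' = f'' := by
    rw [hf'', mul_sub, hff, a2]
  have b4 : f'' * f = f'' := by
    rw [hf'', sub_mul, hff, a3]
  have b5 : f'' * f'' = f'' := by
    calc f'' * f'' = (f - f') * f'' := by rw [← hf'']
      _ = f'' := by rw [sub_mul, b3, b2, sub_zero]
  have b6 : f'' ≠ 0 := by
    intro h0
    rw [h0] at hf''
    exact a6 (sub_eq_zero.1 hf''.symm).symm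
  have c1 : e * f' = f' := by
    calc e * f' = e * (f * f') := by rw [a2]
      _ = (e * f) * f' := (mul_assoc _ _ _).symm
      _ = f' := by rw [hef, a2]
  have c2 : f' * e = f' := by
    calc f' * e = (f' * f) * e := by rw [a3]
      _ = f' * (f * e) := mul_assoc _ _ _
      _ = f' := by rw [hfe, a3]
  have c3 : e * f'' = f'' := by
    rw [hf'', mul_sub, hef, c1]
  have c4 : f'' * e = f'' := by
    rw [hf'', sub_mul, hfe, c2]
  obtain ⟨b, hb⟩ := hP f' f'' a4 b5 c1 c2 c3 c4 a5 b6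
  obtain ⟨n1, hn1⟩ := hall f'
  obtain ⟨n2, hn2⟩ := hall f''
  obtain ⟨n3, hn3⟩ := hall b
  obtain ⟨k', hk'⟩ : ∃ k', k' = (k + 1) + n1 + n2 + n3 := ⟨_, rfl⟩
  have m1 : f' ∈ C k' := hm (by omega) hn1
  have m2 : f'' ∈ C k' := hm (by omega) hn2
  have m3 : b ∈ C k' := hm (by omega) hn3
  have := hss k'
  obtain ⟨g, hg, g1, g2, g3, g4, g5⟩ := SEQ_pri hPRI (C k') f' (f'' * b) m1 ((C k').mul_mem m2 m3) a4 hb
  have hg0 : g ≠ 0 := by
    intro h0
    rw [h0, mul_zero] at g4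
    exact g4 rfl
  have d1 : f * g = g := by
    calc f * g = f * (f' * g) := by rw [g2]
      _ = (f * f') * g := (mul_assoc _ _ _).symm
      _ = g := by rw [a2, g2]
  have d2 : g * f = g := by
    calc g * f = (g * f') * f := by rw [g3]
      _ = g * (f' * f) := mul_assoc _ _ _
      _ = g := by rw [a3, g3]
  have d3 : e * g = g := by
    calc e * g = e * (f * g) := by rw [d1]
      _ = (e * f) * g := (mul_assoc _ _ _).symm
      _ = g := by rw [hef, d1]
  have d4 : g * e = g := by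
    calc g * e = (g * f) * e := by rw [d2]
      _ = g * (f * e) := mul_assoc _ _ _
      _ = g := by rw [hfe, d2]
  refine ⟨⟨k', g, hg, hg0, g1, d3, d4, g5⟩, f'' * b * g, ?_, d1, d2, ?_, ?_, ?_, ?_, g4⟩
  · change k < k'
    omega
  · exact (C k').mul_mem ((C k').mul_mem m2 m3) hg
  · change f * (f'' * b * g) = f'' * b * g
    calc f * (f'' * b * g) = (f * f'') * b * g := by noncomm_ring
      _ = _ := by rw [b3]
  · change f'' * b * g * g = f'' * b * g
    rw [mul_assoc, g1]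
  · change g * (f'' * b * g) = 0
    calc g * (f'' * b * g) = (g * f'') * b * g := by noncomm_ring
      _ = ((g * f') * f'') * b * g := by rw [g3]
      _ = (g * (f' * f'')) * b * g := by rw [mul_assoc g f' f'']
      _ = 0 := by rw [b2, mul_zero, zero_mul, zero_mul]

theorem SEQ (hPRI : PRI_stmt.{u}) (hREG : REG_stmt.{u}) : SEQ_stmt.{u} := by
  intro S _ hC e hee he0 hNM hP
  obtain ⟨C, hm, hall, hss⟩ := hC
  -- the start
  obtain ⟨k₀, hk₀⟩ := hall e
  have := hss k₀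
  obtain ⟨g, hg, g1, g2, g3, g4, g5⟩ := SEQ_pri hPRI (C k₀) e e hk₀ hk₀ hee (by rw [hee]; exact he0)
  have hg0 : g ≠ 0 := by
    intro h0
    rw [h0, mul_zero] at g4
    exact g4 rfl
  let s₀ : SEQ_St C e := ⟨k₀, g, hg, hg0, g1, g2, g3, g5⟩
  choose nx ep h1 h2 h3 h4 h5 h6 h7 h8 using SEQ_step hPRI hREG C hm hall hss e hNM hP
  let q : ℕ → SEQ_St C e := fun n => Nat.rec s₀ (fun _ s => nx s) n
  have hq : ∀ n, q (n + 1) = nx (q n) := fun _ => rfl
  have hk : ∀ n, (q n).k < (q (n + 1)).k := fun n => by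
    rw [hq]
    exact h1 _
  have hkn : ∀ n, n ≤ (q n).k := by
    intro n
    induction n with
    | zero => exact Nat.zero_le _
    | succ n ih => exact Nat.succ_le_of_lt (lt_of_le_of_lt ih (hk n))
  refine ⟨fun n => C (q n).k, fun n => (q n).g, fun n => ep (q n), ⟨?_, ?_, ?_, ?_, ?_, ?_, ?_, ?_, ?_, ?_, ?_, ?_, ?_⟩,
    g2, g3⟩
  · exact monotone_nat_of_le_succ fun n => hm (hk n).le
  · intro r
    obtain ⟨m, hr⟩ := hall r
    exact ⟨m, hm (hkn m) hr⟩
  · exact fun n => (q n).mem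
  · exact fun n => h4 (q n)
  · exact fun n => (q n).ne
  · exact fun n => (q n).idem
  · exact fun n => (q n).prim
  · exact fun n => h2 (q n)
  · exact fun n => h3 (q n)
  · exact fun n => h5 (q n)
  · exact fun n => h6 (q n)
  · exact fun n => h7 (q n)
  · exact fun n => h8 (q n)

end Pool.Agent.IC
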